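import Pool.Agent.Lib.helper18.Blas4

namespace Pool.Agent.Results.MP_e1108f_an.Layers
open Complex Metric Set Filter Topology H18Blas

/-- weak separation in the pseudo-hyperbolic metric -/
def WeakSep (z : ℕ → ℂ) : Prop :=
  ∃ δ > 0, ∀ m n, m ≠ n → δ ≤ ‖(z m - z n) / (1 - (starRingEnd ℂ) (z n) * z m)‖

noncomputable def node (p : ℕ × ℤ) : ℂ := (((1 / 2 : ℝ) ^ p.1 : ℝ) : ℂ) * (1 + p.2 * I)

lemma node_re (p : ℕ × ℤ) : (node p).re = (1 / 2 : ℝ) ^ p.1 := by
  simp only [node, Complex.re_ofReal_mul]; simp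

lemma node_im (p : ℕ × ℤ) : (node p).im = (1 / 2 : ℝ) ^ p.1 * p.2 := by
  simp only [node, Complex.im_ofReal_mul]; simp

lemma node_pos (p : ℕ × ℤ) : 0 < (node p).re := by rw [node_re]; positivity

noncomputable def pt (p : ℕ × ℤ) : ℂ := psi (node p)

lemma pt_mem (p : ℕ × ℤ) : pt p ∈ ball (0:ℂ) 1 := psi_mem (node_pos p)

lemma half_le {i j : ℕ} (h : i < j) : 2 * (1 / 2 : ℝ) ^ j ≤ (1 / 2) ^ i := by
  have : (1 / 2 : ℝ) ^ j ≤ (1 / 2) ^ (i + 1) := pow_le_pow_of_le_one (by norm_num) (by norm_num) h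
  rw [pow_succ] at this; linarith

lemma sep {p q : ℕ × ℤ} (h : p ≠ q) :
    1 / 3 ≤ ‖(pt p - pt q) / (1 - (starRingEnd ℂ) (pt q) * pt p)‖ := by
  apply le_of_sq_le_sq _ (norm_nonneg _)
  have hp := node_pos p
  have hq := node_pos q
  rw [pt, pt, rho_psi hp hq, le_div_iff₀ (by positivity)]
  rw [node_re] at hp hq
  simp only [node_re, node_im]
  rcases lt_trichotomy p.1 q.1 with c | c | c
  · have := half_le c
    nlinarith [sq_nonneg ((1 / 2 : ℝ) ^ p.1 * p.2 - (1 / 2) ^ q.1 * q.2)]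
  · have hk : p.2 - q.2 ≠ 0 := fun e => h (Prod.ext c (sub_eq_zero.1 e))
    have h1 : (1:ℝ) ≤ ((p.2:ℝ) - q.2) ^ 2 := by
      have := Int.one_le_abs hk
      have h2 : 1 ≤ (p.2 - q.2) ^ 2 := by nlinarith [sq_abs (p.2 - q.2)]
      exact_mod_cast h2
    rw [← c]
    nlinarith [mul_le_mul_of_nonneg_left h1 (sq_nonneg ((1 / 2 : ℝ) ^ p.1))]
  · have := half_le c
    nlinarith [sq_nonneg ((1 / 2 : ℝ) ^ p.1 * p.2 - (1 / 2) ^ q.1 * q.2)]

lemma pt_inj : Function.Injective pt := by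
  intro p q e
  by_contra h
  have := sep h
  rw [e] at this; simp at this; linarith

abbrev I0 := {p : ℕ × ℤ // 16 ^ p.1 ≤ |p.2|}
abbrev I1 := {p : ℕ × ℤ // 0 < p.1 ∧ 16 ^ p.1 ≤ |p.2|}

lemma sum0 : Summable fun p : I0 => 1 - ‖pt p‖ := by
  have h1 := (summable_geometric_two.mul_of_nonneg (Real.summable_abs_int_rpow (b := 3 / 2)
    (by norm_num)) (fun _ => by positivity) (fun _ => by positivity)).mul_left 4
  refine Summable.of_nonneg_of_le (fun p => ?_) (fun p => ?_) (h1.subtype _)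
  · have : ‖pt p‖ < 1 := by simpa using pt_mem p
    linarith
  obtain ⟨⟨j, k⟩, hp⟩ := p
  simp only [Function.comp]
  have hk : (16:ℝ) ^ j ≤ |(k:ℝ)| := by exact_mod_cast hp
  have hk0 : 0 < |(k:ℝ)| := lt_of_lt_of_le (by positivity) hk
  have h2 := psi_sq (node_pos (j, k))
  have h3 : ‖pt (j, k)‖ < 1 := by simpa using pt_mem (j, k)
  have h4 : 1 - ‖pt (j, k)‖ ≤ 1 - ‖pt (j, k)‖ ^ 2 := by nlinarith [norm_nonneg (pt (j, k))]
  refine h4.trans ?_
  rw [pt, h2, node_re]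
  obtain ⟨t, ht0, ht⟩ : ∃ t : ℝ, 0 < t ∧ |(k:ℝ)| = t ^ 2 :=
    ⟨√|(k:ℝ)|, Real.sqrt_pos.2 hk0, (Real.sq_sqrt hk0.le).symm⟩
  have e1 : |(k:ℝ)| ^ (-(3 / 2 : ℝ)) = 1 / t ^ 3 := by
    rw [ht, ← Real.rpow_natCast, ← Real.rpow_mul ht0.le, one_div, ← Real.rpow_natCast,
      ← Real.rpow_neg ht0.le]
    norm_num
  have h5 : (1 / 2 : ℝ) ^ j * t ^ 2 ≤ ‖node (j, k) + 1‖ := by
    have := Complex.abs_im_le_norm (node (j, k) + 1)
    rw [add_im, one_im, add_zero, node_im, abs_mul, abs_of_pos (by positivity), ht] at this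
    exact this
  have h6 : (4:ℝ) ^ j ≤ t := by
    apply le_of_sq_le_sq _ ht0.le
    rw [← ht, ← pow_mul, mul_comm, pow_mul]; norm_num; exact hk
  have h7 : ((1 / 2 : ℝ) ^ j) ^ 2 * 4 ^ j = 1 := by
    rw [← pow_mul, mul_comm j, pow_mul, ← mul_pow]; norm_num
  have hx : 0 < (1 / 2 : ℝ) ^ j := by positivity
  have h8 : t ^ 3 ≤ ‖node (j, k) + 1‖ ^ 2 := by
    have h9 : ((1 / 2 : ℝ) ^ j * t ^ 2) ^ 2 ≤ ‖node (j, k) + 1‖ ^ 2 := by gcongr
    have h10 : 1 ≤ ((1 / 2 : ℝ) ^ j) ^ 2 * t := h7.symm.le.trans (by gcongr)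
    nlinarith [mul_le_mul_of_nonneg_left h10 (pow_pos ht0 3).le]
  rw [e1]
  calc 4 * (1 / 2 : ℝ) ^ j / ‖node (j, k) + 1‖ ^ 2 ≤ 4 * (1 / 2 : ℝ) ^ j / t ^ 3 := by gcongr
    _ = _ := by ring

noncomputable def a (p : I1) : ℂ := pt p

lemma ha (p : I1) : a p ∈ ball (0:ℂ) 1 ∧ a p ≠ 0 := by
  refine ⟨pt_mem _, fun h => ?_⟩
  have h0 : pt (0, 0) = 0 := by simp [pt, node, psi]
  have := pt_inj (h.trans h0.symm)
  have h2 := p.2.1
  rw [this] at h2; simp at h2

lemma hs : Summable fun p : I1 => 1 - ‖a p‖ :=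
  sum0.comp_injective (i := fun p : I1 => (⟨p.1, p.2.2⟩ : I0))
    fun _ _ h => Subtype.ext (congrArg (fun x : I0 => x.1) h)

lemma hinj : Function.Injective a := pt_inj.comp Subtype.val_injective

lemma decay (L : ℕ) (m : ℤ) (hm : 16 ^ L ≤ |m|) : ‖BP a (pt (0, m))‖ ^ 2 ≤ Real.exp (-L) := by
  classical
  set t : ℕ → Finset ℤ := fun j => Finset.Ico (m * 2 ^ j) (m * 2 ^ j + 2 ^ j) with ht
  set G : Finset (ℕ × ℤ) := (Finset.Icc 1 L).biUnion fun j => (t j).image (Prod.mk j) with hG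
  have hmem : ∀ p : ℕ × ℤ, p ∈ G ↔ p.1 ∈ Finset.Icc 1 L ∧ p.2 ∈ t p.1 := by
    rintro ⟨j, k⟩
    simp only [hG, Finset.mem_biUnion, Finset.mem_image, Prod.mk.injEq]
    constructor
    · rintro ⟨i, hi, l, hl, rfl, rfl⟩; exact ⟨hi, hl⟩
    · rintro ⟨h1, h2⟩; exact ⟨j, h1, k, h2, rfl, rfl⟩
  have h1 := BP_le ha hs (pt_mem (0, m)) (G.subtype _)
  have h2 := Finset.prod_subtype_of_mem (s := G) (p := fun p => 0 < p.1 ∧ 16 ^ p.1 ≤ |p.2|)
    (fun p => ‖(pt (0, m) - pt p) / (1 - (starRingEnd ℂ) (pt p) * pt (0, m))‖) (by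
      rintro ⟨j, k⟩ hp
      obtain ⟨b1, b2⟩ := (hmem _).1 hp
      simp only [ht, Finset.mem_Icc, Finset.mem_Ico] at b1 b2
      refine ⟨b1.1, ?_⟩
      have c1 : (16:ℤ) ^ j ≤ 16 ^ L := pow_le_pow_right₀ (by norm_num) b1.2
      have c2 : (2:ℤ) ^ 1 ≤ 2 ^ j := pow_le_pow_right₀ (by norm_num) b1.1
      have c3 : (16:ℤ) ^ 1 ≤ 16 ^ j := pow_le_pow_right₀ (by norm_num) b1.1
      show 16 ^ j ≤ |k|
      rcases abs_cases m with c | c
      · refine le_trans ?_ (le_abs_self k); nlinarith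
      · refine le_trans ?_ (neg_le_abs k); nlinarith)
  have h3 : ‖BP a (pt (0, m))‖ ≤ ∏ p ∈ G,
      ‖(pt (0, m) - pt p) / (1 - (starRingEnd ℂ) (pt p) * pt (0, m))‖ := h1.trans (le_of_eq h2)
  refine (pow_le_pow_left₀ (norm_nonneg _) h3 2).trans ?_
  rw [← Finset.prod_pow, Finset.prod_finset_product G _ t hmem]
  have h4 : Real.exp (-L) = ∏ j ∈ Finset.Icc 1 L, ∏ _k ∈ t j, Real.exp (-(1 / 2) ^ j) := by
    have : ∀ j, ∏ _k ∈ t j, Real.exp (-(1 / 2) ^ j) = Real.exp (-1) := by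
      intro j
      have hc : (t j).card = 2 ^ j := by
        simp only [ht, Int.card_Ico, add_sub_cancel_left]
        exact_mod_cast Int.toNat_natCast (2 ^ j)
      rw [Finset.prod_const, hc, ← Real.exp_nat_mul]
      congr 1; push_cast; rw [mul_neg, ← mul_pow]; norm_num
    simp only [this, Finset.prod_const, Nat.card_Icc, ← Real.exp_nat_mul]; simp
  rw [h4]
  refine Finset.prod_le_prod (fun _ _ => Finset.prod_nonneg fun _ _ => sq_nonneg _) fun j hj => ?_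
  refine Finset.prod_le_prod (fun _ _ => sq_nonneg _) fun k hk => ?_
  simp only [ht, Finset.mem_Icc, Finset.mem_Ico] at hj hk
  refine le_trans ?_ (Real.add_one_le_exp _)
  have hq := node_pos (j, k)
  rw [pt, pt, rho_psi (node_pos _) hq, div_le_iff₀ (by have := node_pos (0, m); positivity)]
  simp only [node_re, node_im, pow_zero, one_mul]
  have hx : 0 < (1 / 2 : ℝ) ^ j := by positivity
  have hx1 := half_le (i := 0) (j := j) hj.1
  have hx2 : (1 / 2 : ℝ) ^ j * 2 ^ j = 1 := by rw [← mul_pow]; norm_num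
  have k1 : (m:ℝ) * 2 ^ j ≤ k := by exact_mod_cast hk.1
  have k2 : (k:ℝ) ≤ m * 2 ^ j + 2 ^ j := by exact_mod_cast hk.2.le
  rw [pow_zero] at hx1
  set x := (1 / 2 : ℝ) ^ j
  have k3 : (m:ℝ) ≤ x * k := by
    have := mul_le_mul_of_nonneg_left k1 hx.le
    have e : x * (m * 2 ^ j) = m := by linear_combination m * hx2
    linarith
  have k4 : x * k ≤ m + 1 := by
    have := mul_le_mul_of_nonneg_left k2 hx.le
    have e : x * (m * 2 ^ j + 2 ^ j) = m + 1 := by linear_combination (m + 1) * hx2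
    linarith
  have k5 : (m - x * k) ^ 2 ≤ 1 := by nlinarith
  have k6 : (1 + x) ^ 2 + (m - x * k) ^ 2 ≤ 4 := by nlinarith
  nlinarith [mul_le_mul_of_nonneg_left k6 hx.le]

noncomputable def T (w : ℂ) : ℂ := cexp (-(Real.pi * phi w))

lemma T_diff : DifferentiableOn ℂ T (ball 0 1) := by
  apply DifferentiableOn.cexp
  apply DifferentiableOn.neg
  apply DifferentiableOn.const_mul
  exact DifferentiableOn.div (by fun_prop) (by fun_prop) (fun s hs => one_sub_ne hs)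

lemma T_le {w : ℂ} (hw : w ∈ ball (0:ℂ) 1) : ‖T w‖ ≤ 1 :=
  norm_exp_neg (by have := phi_pos hw; have := Real.pi_pos; simp; positivity)

lemma BP_zero (p : I1) : BP a (a p) = 0 := by
  have := BP_le ha hs (ha p).1 {p}
  simpa using this

theorem result : ∃ (f : ℂ → ℂ) (z : ℕ → ℂ), Hinf f ∧ BSeq z ∧ WeakSep z ∧
    Tendsto (fun n => f (z n)) atTop (𝓝 0) ∧
    ∃ g, MinInterp f z g ∧ (∀ g', MinInterp f z g' → EqOn g' g (ball 0 1)) ∧
      ¬ ∃ (c : ℂ) (B : ℂ → ℂ), IsBlaschke B ∧ ∀ w ∈ ball (0 : ℂ) 1, g w = c * B w := by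
  have hi : Infinite I0 := Infinite.of_injective
    (fun n : ℕ => (⟨(0, (n:ℤ) + 1), by simpa using Int.one_le_abs (by omega)⟩ : I0)) (by
      intro m n h; simpa using h)
  obtain ⟨d⟩ := nonempty_denumerable I0
  obtain ⟨e⟩ : Nonempty (ℕ ≃ I0) := ⟨(Denumerable.eqv _).symm⟩
  have hd : DifferentiableOn ℂ (fun w => BP a w * T w) (ball 0 1) := (BP_gen ha hs).1.mul T_diff
  have hB1 : ∀ w ∈ ball (0:ℂ) 1, ‖BP a w‖ ≤ 1 := fun w hw => by simpa using BP_le ha hs hw ∅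
  have hf1 : ∀ w ∈ ball (0:ℂ) 1, ‖BP a w * T w‖ ≤ 1 := fun w hw => by
    rw [norm_mul]; exact mul_le_one₀ (hB1 w hw) (norm_nonneg _) (T_le hw)
  have hinj0 : Function.Injective fun n => (e n).1 := Subtype.val_injective.comp e.injective
  have hw := wrap' _ hd hf1 (fun n => pt (e n)) (by
    intro g hg hg1 hint
    have hW : ∀ p : I0, g (pt p) = BP a (pt p) * T (pt p) := by
      intro p; simpa using hint (e.symm p)
    obtain ⟨k, hk, hk1, hk2⟩ := BP_div ha hs hinj hg hg1 (by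
      intro p
      have := hW ⟨p.1, p.2.2⟩
      rw [show pt p.1 = a p from rfl, BP_zero, zero_mul] at this
      exact this)
    have := uniq_per (comp_psi hk) (fun s hs => hk1 _ (psi_mem hs)) (by
      intro m hm
      have e1 : node (0, m) = 1 + m * I := by simp [node]
      have h1 := hW ⟨(0, m), by simpa using Int.one_le_abs hm⟩
      have h2 : BP a (pt (0, m)) ≠ 0 := BP_ne ha hs (pt_mem _) fun p h => by
        have := p.2.1
        rw [← pt_inj h] at this; simp at this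
      rw [hk2 _ (pt_mem _), mul_comm] at h1
      have h3 := mul_left_cancel₀ h2 h1
      rw [pt, T, phi_psi (node_pos _), e1] at h3
      exact h3)
    intro w hw
    have h2 := this (phi w) (phi_pos hw)
    simp only [psi_phi hw] at h2
    simp only [hk2 w hw, h2, T, mul_comm])
  refine ⟨fun w => BP a w * T w, fun n => pt (e n), ⟨hd, 1, hf1⟩,
    ⟨fun n => pt_mem _, pt_inj.comp hinj0, sum0.comp_injective e.injective⟩,
    ⟨1 / 3, by norm_num, fun m n h => sep fun h' => h (hinj0 h')⟩, ?_, _, hw.1, hw.2,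
    not_blaschke ha hs hinj T_diff (fun _ => Complex.exp_ne_zero _) ?_⟩
  · rw [Metric.tendsto_nhds, ← Nat.cofinite_eq_atTop]
    intro ε hε
    obtain ⟨L, hL⟩ := ((Real.tendsto_exp_neg_atTop_nhds_zero.comp
      tendsto_natCast_atTop_atTop).eventually (gt_mem_nhds (pow_pos hε 2))).exists
    refine hinj0.tendsto_cofinite.eventually (p := fun p => 16 ^ p.1 ≤ |p.2| →
      dist (BP a (pt p) * T (pt p)) 0 < ε) ?_ |>.mono fun n hn => hn (e n).2
    rw [Filter.eventually_cofinite]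
    refine ((finite_singleton 0).prod (finite_Icc (-16 ^ L) (16 ^ L))).subset ?_
    rintro ⟨j, m⟩ hp
    simp only [mem_setOf_eq, Classical.not_imp, dist_zero_right, not_lt] at hp
    obtain ⟨h1, h2⟩ := hp
    have hj : j = 0 := by
      by_contra hj
      have := BP_zero ⟨(j, m), Nat.pos_of_ne_zero hj, h1⟩
      rw [show a ⟨(j, m), _⟩ = pt (j, m) from rfl] at this
      rw [this] at h2; simp at h2; linarith
    subst hj
    refine ⟨rfl, abs_le.1 ?_⟩
    by_contra hm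
    have h3 := decay L m (le_of_lt (not_le.1 hm))
    have h4 : ε ≤ ‖BP a (pt (0, m))‖ := by
      rw [norm_mul] at h2
      exact h2.trans (mul_le_of_le_one_right (norm_nonneg _) (T_le (pt_mem _)))
    have h5 : ε ^ 2 ≤ ‖BP a (pt (0, m))‖ ^ 2 := by gcongr
    simp only [Function.comp] at hL
    linarith
  · intro ε hε
    obtain ⟨x, hx, hx1⟩ := ((Real.tendsto_exp_neg_atTop_nhds_zero.eventually
      (gt_mem_nhds hε)).and (eventually_gt_atTop 1)).exists
    have hx0 : 0 < (x:ℂ).re := by simp; linarith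
    refine ⟨psi x, psi_mem hx0, fun p h => ?_, ?_⟩
    · have h1 := congrArg phi h
      rw [a, pt, phi_psi hx0, phi_psi (node_pos _)] at h1
      have h2 := congrArg Complex.re h1
      rw [node_re, ofReal_re] at h2
      have : (1 / 2 : ℝ) ^ p.1.1 ≤ 1 := pow_le_one₀ (by norm_num) (by norm_num)
      linarith
    · rw [T, phi_psi hx0, Complex.norm_exp]
      refine lt_of_le_of_lt (Real.exp_le_exp.2 ?_) hx
      simp; nlinarith [Real.pi_gt_three]

end Pool.Agent.Results.MP_e1108f_an.Layers
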